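import Pool.Agent.Q148.ToricTwosDef
import Pool.Agent.Q148.ToricTwos

open Q148.Toric

namespace Pool.Agent.Results.MP_ae75a9_co.CubicTwos

/-- For `n = 5` and every field there is a linear order of the lattice points in which matrices
with more entries two come first, and another one in which they come last, such that the reduced
Groebner basis for the graded reverse lexicographic order has an element of degree three with the
following property: in every decomposition of its matrix into lattice points every summand has an
entry two. -/
theorem result (k : Type) [Field k] :
    (∃ r : LinearOrder (Pt 5), (∀ M N : Pt 5, twos N < twos M → r.lt M N) ∧ HasCubicTwos k r) ∧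
    (∃ r : LinearOrder (Pt 5), (∀ M N : Pt 5, twos M < twos N → r.lt M N) ∧ HasCubicTwos k r) :=
  ⟨⟨rL, rL_ext, twosL k⟩, ⟨rI, rI_ext, twosI k⟩⟩

end Pool.Agent.Results.MP_ae75a9_co.CubicTwos
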